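import Pool.Agent.K6.H26.PT.Mills

set_option autoImplicit false

/-! # Totients following any prescribed sequence, next to record gaps, along Mills-type sequences

`a(N) = q(N) - N²`, `q(N)` the least prime above `N²`, is compared with `φ(N)`. Let `g_k(t) = v_k t^(n_k)`, each function
at least the `lam`-th power of the previous one (for instance `t^(3^k)`). For EVERY sequence of patterns
`(m_k mod D; φ(m_k + j) / (m_k + j), 0 ≤ j ≤ J)` and all sequences `A_k`, `B_k ≥ 1` the set of the `t` for which all the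
integers `N = ⌊g_k(t)⌋`, `k` large,

* are `≡ m_k (mod D)` and have `|φ(N + j) / (N + j) - φ(m_k + j) / (m_k + j)| < ε`, `0 ≤ j ≤ J`, and
* have no prime within `K = c f(N) / (A_k B_k)` of any `x N² + y N + z`, `0 ≤ x ≤ A_k`, `|y| ≤ B_k`, `|z| ≤ K`
  (`y > 0` if `x = 0`), if `K ≥ log N`,

has Hausdorff dimension at least `s < 1`, where `c = c(D, J, ε, lam, s)` does not depend on the sequences.

Author: helper26. The interval theorem behind the hand-in `PrescribedTotients` (uniform in the pattern) is combined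
with the Cantor sets of helper83 (`Pool.Agent.K6.H83.MC`). -/

namespace Pool.Agent.Results.MP_36c81c_nt.MillsPrescribedTotients

open Pool.Agent.K6.H26

/-- The scale `f(x) = log x (log₂ x)² log₄ x / (log₃ x)²` (iterated natural logarithms). -/
noncomputable def f (x : ℝ) : ℝ :=
  Real.log x * (Real.log (Real.log x)) ^ 2 * Real.log (Real.log (Real.log (Real.log x))) /
    (Real.log (Real.log (Real.log x))) ^ 2

/-- The ratio `φ(n) / n`. -/
noncomputable def ratio (n : ℕ) : ℝ := (Nat.totient n : ℝ) / n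

/-- `N` has the pattern of `m`: the same class modulo `D`, and the same ratios `φ / id` at `N + j`, `m + j`,
`0 ≤ j ≤ J`, up to `ε`. -/
def SamePattern (D J : ℕ) (ε : ℝ) (m N : ℕ) : Prop :=
  N ≡ m [MOD D] ∧ ∀ j : ℕ, j ≤ J → |ratio (N + j) - ratio (m + j)| < ε

/-- With `K = c f(N) / (A B)`: if `K ≥ log N`, no prime is within `K` of any `x N² + y N + z`, `0 ≤ x ≤ A`, `|y| ≤ B`,
`|z| ≤ K`, `y > 0` if `x = 0`. -/
def PrimeFree (A B : ℕ) (c : ℝ) (N : ℕ) : Prop :=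
  Real.log N ≤ c * f N / (A * B) → ∀ x y z : ℤ, 0 ≤ x → x ≤ A → |y| ≤ B →
    |(z : ℝ)| ≤ c * f N / (A * B) → (x = 0 → 0 < y) →
    ∀ q : ℕ, q.Prime → c * f N / (A * B) < |(q : ℝ) - (x * (N : ℝ) ^ 2 + y * N + z)|

theorem result (D J : ℕ) (hD : 1 ≤ D) (ε lam s : ℝ) (hε : 0 < ε) (hlam : 1 < lam) (hs : s < 1) :
    ∃ c : ℝ, 0 < c ∧ ∀ m A B : ℕ → ℕ, (∀ k, 1 ≤ m k) → (∀ k, 1 ≤ A k) → (∀ k, 1 ≤ B k) →
    ∀ v n : ℕ → ℝ, 0 < n 0 → Monotone n → (∀ k, 0 < v k) → ∀ a b : ℝ, 0 ≤ a → a < b →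
    (∀ t, a < t → t < b → 1 < v 0 * t ^ n 0) →
    (∀ k t, a < t → t < b → (v k * t ^ n k) ^ lam ≤ v (k + 1) * t ^ n (k + 1)) →
    ENNReal.ofReal s ≤ dimH {t : ℝ | a < t ∧ t < b ∧ ∃ k₀, ∀ k, k₀ ≤ k →
      SamePattern D J ε (m k) ⌊v k * t ^ n k⌋₊ ∧ PrimeFree (A k) (B k) c ⌊v k * t ^ n k⌋₊} := by
  obtain ⟨c, hc, h⟩ := PT.pat_mills D J hD ε hε lam s hlam hs
  refine ⟨c, hc, fun m A B hm hA hB v n hn0 hn hv a b ha hab hone hgrow => ?_⟩
  refine (h m A B hm hA hB v n hn0 hn hv a b ha hab hone hgrow).trans (dimH_mono ?_)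
  rintro t ⟨h1, h2, k₀, h3⟩
  exact ⟨h1, h2, k₀, fun k hk => ⟨⟨(h3 k hk).1, (h3 k hk).2.1⟩, (h3 k hk).2.2⟩⟩

end Pool.Agent.Results.MP_36c81c_nt.MillsPrescribedTotients
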