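import Pool.Agent.Results.MP_36c81c_nt.SmallTotientRecord
import Pool.Agent.K6.H83.MC.Pow

set_option autoImplicit false
set_option maxHeartbeats 4000000

/-! # Record distance of `N²` from the primes and small `φ(N)` along Mills-type sequences

The question is whether `a(N) ≤ 1 + φ(N)`, where `N² + a(N)` is the least prime beyond `N²`. For every
`lam > 1` and `s < 1` there are constants such that for every sequence of functions `v_k t^(n_k)` (with positive
nondecreasing exponents, each function at least the `lam`-th power of the previous one; for instance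
`t^(3^k)`) the set of the reals `t` for which ALL the integers `N = ⌊v_k t^(n_k)⌋`, `k` large, have both extremal
properties

* every prime has distance more than `c log N (log₂ N)² log₄ N / (log₃ N)²` from `N²`,
* `φ(N) ≤ C N log₃ N / (log₂ N log₄ N)`,

has Hausdorff dimension at least `s` in every interval.

Method: the interval theorem `MP_36c81c_nt.SmallTotientRecord` and the Cantor set construction
`Pool.Agent.K6.H83.MC`. -/

namespace Pool.Agent.Results.MP_36c81c_nt.MillsSequences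

open Filter

/-- `log N (log₂ N)² log₄ N / (log₃ N)²` -/
noncomputable def recordLength (x : ℝ) : ℝ :=
  Real.log x * Real.log (Real.log x) ^ 2 *
    Real.log (Real.log (Real.log (Real.log x))) / Real.log (Real.log (Real.log x)) ^ 2

/-- `N log₃ N / (log₂ N log₄ N)` -/
noncomputable def smallTotient (x : ℝ) : ℝ :=
  x * Real.log (Real.log (Real.log x)) /
    (Real.log (Real.log x) * Real.log (Real.log (Real.log (Real.log x))))

/-- every prime is far from `N²`, and `φ(N)` is small -/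
def Extreme (c C : ℝ) (N : ℕ) : Prop :=
  (∀ q : ℕ, q.Prime → c * recordLength N < |(q : ℝ) - (N : ℝ) ^ 2|) ∧
    (Nat.totient N : ℝ) ≤ C * smallTotient N

theorem ev_logs (K : ℝ) : ∀ᶠ x : ℝ in atTop, K ≤ Real.log x ∧ K ≤ Real.log (Real.log x) ∧
    K ≤ Real.log (Real.log (Real.log x)) ∧ K ≤ Real.log (Real.log (Real.log (Real.log x))) := by
  have t1 := Real.tendsto_log_atTop
  have t2 := t1.comp t1
  have t3 := t1.comp t2
  have t4 := t1.comp t3
  filter_upwards [t1.eventually_ge_atTop K, t2.eventually_ge_atTop K, t3.eventually_ge_atTop K,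
    t4.eventually_ge_atTop K] with x h1 h2 h3 h4
  exact ⟨h1, h2, h3, h4⟩

/-- the lengths at `N` and at `Y`, `N^κ ≤ Y ≤ N` -/
theorem compare (κ : ℝ) (h0 : 0 < κ) : ∀ᶠ N : ℝ in atTop, ∀ Y : ℝ, N ^ κ ≤ Y → Y ≤ N →
    κ / 8 * recordLength N ≤ recordLength Y ∧
      N * Real.log (Real.log (Real.log Y)) /
        (Real.log (Real.log Y) * Real.log (Real.log (Real.log (Real.log Y)))) ≤
        4 * smallTotient N := by
  filter_upwards [ev_logs (max 2 (-(2 * Real.log κ))), eventually_gt_atTop (1 : ℝ)] with N hN hN1 Y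
    hY1 hY2
  have M1 : (2 : ℝ) ≤ max 2 (-(2 * Real.log κ)) := le_max_left _ _
  have M2 : -(2 * Real.log κ) ≤ max 2 (-(2 * Real.log κ)) := le_max_right _ _
  obtain ⟨h1, h2, h3, h4⟩ := hN
  have hN0 : 0 < N := by linarith
  have hY0 : 0 < Y := lt_of_lt_of_le (by positivity) hY1
  have l2 : Real.log 2 ≤ 1 := by
    have := Real.log_two_lt_d9; linarith
  unfold recordLength smallTotient
  set a1 := Real.log N with ha1
  set a2 := Real.log a1 with ha2
  set a3 := Real.log a2 with ha3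
  set a4 := Real.log a3 with ha4
  set b1 := Real.log Y with hb1
  set b2 := Real.log b1 with hb2
  set b3 := Real.log b2 with hb3
  set b4 := Real.log b3 with hb4
  have p1 : 0 < a1 := by linarith
  have p2 : 0 < a2 := by linarith
  have p3 : 0 < a3 := by linarith
  have p4 : 0 < a4 := by linarith
  have w1 : κ * a1 ≤ b1 := by
    have := Real.log_le_log (by positivity) hY1
    rwa [Real.log_rpow hN0] at this
  have q1 : 0 < b1 := lt_of_lt_of_le (by positivity) w1
  have w2 : a2 / 2 ≤ b2 := by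
    have := Real.log_le_log (by positivity) w1
    rw [Real.log_mul h0.ne' p1.ne'] at this
    linarith
  have q2 : 0 < b2 := by linarith
  have w3 : a3 / 2 ≤ b3 := by
    have := Real.log_le_log (by positivity) w2
    rw [Real.log_div p2.ne' (by norm_num)] at this
    linarith
  have q3 : 0 < b3 := by linarith
  have w4 : a4 / 2 ≤ b4 := by
    have := Real.log_le_log (by positivity) w3
    rw [Real.log_div p3.ne' (by norm_num)] at this
    linarith
  have q4 : 0 < b4 := by linarith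
  have u1 : b1 ≤ a1 := Real.log_le_log hY0 hY2
  have u2 : b2 ≤ a2 := Real.log_le_log q1 u1
  have u3 : b3 ≤ a3 := Real.log_le_log q2 u2
  constructor
  · calc κ / 8 * (a1 * a2 ^ 2 * a4 / a3 ^ 2) = (κ * a1) * (a2 / 2) ^ 2 * (a4 / 2) / a3 ^ 2 := by
          ring
      _ ≤ b1 * b2 ^ 2 * b4 / b3 ^ 2 := by gcongr
  · calc N * b3 / (b2 * b4) ≤ N * a3 / (a2 / 2 * (a4 / 2)) := by gcongr
      _ = 4 * (N * a3 / (a2 * a4)) := by field_simp; ring

/-- every short interval contains a short interval of good points -/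
theorem extreme_short (θ : ℝ) (h0 : 0 < θ) (h1 : θ ≤ 1) : ∃ c C : ℝ, 0 < c ∧ 0 < C ∧ ∃ X₀ : ℝ,
    ∀ x : ℝ, X₀ ≤ x → ∃ y, x ≤ y ∧ y ≤ x + x ^ θ ∧
      ∀ t, y ≤ t → t ≤ y + 1 / 2 → Extreme c C ⌊t⌋₊ := by
  obtain ⟨c, hc, C, hC, Y₀, hb⟩ := SmallTotientRecord.result
  have e1 : ∀ᶠ x : ℝ in atTop, max (2 * Y₀) 4 ≤ x ^ θ :=
    (tendsto_rpow_atTop h0).eventually_ge_atTop _
  have e2 := eventually_atTop.1 (compare (θ / 4) (by positivity))
  obtain ⟨N₀, hN₀⟩ := e2
  have e3 : ∀ᶠ x : ℝ in atTop, 2 * (3 : ℝ) ^ (θ / 4) ≤ x ^ (3 * θ / 4) :=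
    (tendsto_rpow_atTop (by positivity)).eventually_ge_atTop _
  obtain ⟨X₀, hX⟩ := eventually_atTop.1 ((e1.and e3).and ((eventually_ge_atTop N₀).and
    ((eventually_ge_atTop (3 : ℝ)).and (ev_logs 1))))
  refine ⟨c * (θ / 4 / 8), 4 * C, by positivity, by positivity, X₀, fun x hx => ?_⟩
  obtain ⟨⟨f1, f5⟩, f2, f3, f4⟩ := hX x hx
  have hx0 : 0 < x := by linarith
  have hY : Y₀ ≤ x ^ θ / 2 := by have := (le_max_left _ _).trans f1; linarith
  have h4 : 4 ≤ x ^ θ := (le_max_right _ _).trans f1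
  have hxx : x ^ θ ≤ x := by
    calc x ^ θ ≤ x ^ (1 : ℝ) := Real.rpow_le_rpow_of_exponent_le (by linarith) h1
      _ = x := Real.rpow_one x
  have hM : x ^ θ / 2 ≤ (⌈x⌉₊ : ℝ) := by have := Nat.le_ceil x; linarith
  obtain ⟨n, n1, n2, n3, n4⟩ := hb (x ^ θ / 2) hY ⌈x⌉₊ hM
  have g1 : (⌈x⌉₊ : ℝ) < x + 1 := Nat.ceil_lt_add_one hx0.le
  have g2 : x ≤ (⌈x⌉₊ : ℝ) := Nat.le_ceil x
  have g3 : (⌈x⌉₊ : ℝ) < n := by exact_mod_cast n1
  refine ⟨n, by linarith, by linarith, fun t ht1 ht2 => ?_⟩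
  have hfl : ⌊t⌋₊ = n := by
    rw [Nat.floor_eq_iff (by linarith)]
    exact ⟨ht1, by linarith⟩
  rw [hfl]
  have hn3 : (n : ℝ) ≤ 3 * x := by linarith
  have hnx : x ≤ (n : ℝ) := by linarith
  have hκ : (n : ℝ) ^ (θ / 4) ≤ x ^ θ / 2 := by
    calc (n : ℝ) ^ (θ / 4) ≤ (3 * x) ^ (θ / 4) := Real.rpow_le_rpow (by linarith) hn3 (by positivity)
      _ = 3 ^ (θ / 4) * x ^ (θ / 4) := Real.mul_rpow (by norm_num) hx0.le
      _ ≤ (x ^ (3 * θ / 4) / 2) * x ^ (θ / 4) := by
        apply mul_le_mul_of_nonneg_right _ (by positivity)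
        linarith
      _ = x ^ θ / 2 := by
        rw [div_mul_eq_mul_div, ← Real.rpow_add hx0]
        ring_nf
  obtain ⟨k1, k2⟩ := hN₀ n (f2.trans hnx) (x ^ θ / 2) hκ (by linarith)
  constructor
  · intro q hq
    refine lt_of_le_of_lt ?_ (n4 q hq)
    calc c * (θ / 4 / 8) * recordLength n = c * (θ / 4 / 8 * recordLength n) := by ring
      _ ≤ c * recordLength (x ^ θ / 2) := mul_le_mul_of_nonneg_left k1 hc.le
  · refine n3.trans ?_
    calc C * n * Real.log (Real.log (Real.log (x ^ θ / 2))) /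
          (Real.log (Real.log (x ^ θ / 2)) * Real.log (Real.log (Real.log (Real.log (x ^ θ / 2)))))
        = C * (n * Real.log (Real.log (Real.log (x ^ θ / 2))) /
          (Real.log (Real.log (x ^ θ / 2)) *
            Real.log (Real.log (Real.log (Real.log (x ^ θ / 2)))))) := by ring
      _ ≤ C * (4 * smallTotient n) := mul_le_mul_of_nonneg_left k2 hC.le
      _ = _ := by ring

/-- **Record distance from the primes and small totient along Mills-type sequences.** -/
theorem result (lam s : ℝ) (hlam : 1 < lam) (hs : s < 1) : ∃ c C : ℝ, 0 < c ∧ 0 < C ∧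
    ∀ v n : ℕ → ℝ, 0 < n 0 → Monotone n → (∀ k, 0 < v k) → ∀ a b : ℝ, 0 ≤ a → a < b →
    (∀ t, a < t → t < b → 1 < v 0 * t ^ n 0) →
    (∀ k t, a < t → t < b → (v k * t ^ n k) ^ lam ≤ v (k + 1) * t ^ n (k + 1)) →
    ENNReal.ofReal s ≤
      dimH {t : ℝ | a < t ∧ t < b ∧ ∃ k₀, ∀ k, k₀ ≤ k → Extreme c C ⌊v k * t ^ n k⌋₊} := by
  have hl0 : 0 < lam := by linarith
  have hδ0 : 0 < 1 - 1 / lam := by
    have : 1 / lam < 1 := by rw [div_lt_one hl0]; exact hlam
    linarith
  set θ := min 1 ((1 - 1 / lam) * (1 - s) / 2) with hθ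
  have hD : 0 < (1 - 1 / lam) * (1 - s) := mul_pos hδ0 (by linarith)
  have hθ0 : 0 < θ := lt_min one_pos (by linarith)
  have hθ1 : θ ≤ 1 := min_le_left _ _
  have hθ2 : θ < (1 - 1 / lam) * (1 - s) := lt_of_le_of_lt (min_le_right _ _) (by linarith)
  obtain ⟨c, C, hc, hC, X₀, hX⟩ := extreme_short θ hθ0 hθ1
  exact ⟨c, C, hc, hC, fun v n hn0 hn hv a b ha hab hone hgrow =>
    Pool.Agent.K6.H83.MC.mills_pow hlam ha hab hn0 hn hv hone hgrow s θ hs hθ0.le hθ2
      (fun _ t => Extreme c C ⌊t⌋₊) X₀ (fun _ => hX)⟩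

end Pool.Agent.Results.MP_36c81c_nt.MillsSequences
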