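import Pool.Agent.K6.H26.PT.Unif

set_option autoImplicit false

/-! # Every pattern of totients occurs next to squares in record gaps

`a(n) = q(n) - n²`, `q(n)` the least prime above `n²`, is compared with `φ(n)`. The earlier results for this problem
give places where `a(n)` is at least the record order `f(Z) = log Z (log₂ Z)² log₄ Z / (log₃ Z)²` and `φ(n)` is nearly
minimal. Here the ratios `φ(n + j) / (n + j)`, `0 ≤ j ≤ J`, are arbitrary: every vector of ratios
`φ(m + j) / (m + j)`, `0 ≤ j ≤ J`, that occurs at all (for some `m`), occurs up to `ε` for some `n ≡ m (mod D)` in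
`(M, M + Z]`, `Z ≤ M ≤ Z^α`, with no prime within `K` of any `a n² + b n + d`, `0 ≤ a ≤ A`, `|b| ≤ B`, `|d| ≤ K`
(`b > 0` if `a = 0`), as soon as `A B K ≤ c f(Z)`, where `c = c(D, J, ε, α)` does not depend on `m`. So no condition
on the sizes of `φ(n)`, `φ(n + 1)`, ... and of their quotients which holds for some number is an obstruction to record
gaps at all the squares `(n + j)²`.

Author: helper26 (`Pool/Agent/K6/H26/PT`, `Pool/Agent/K6/H26/QW`). `n = Q x + h` with a fixed modulus `Q` and a shift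
`h` whose translates have few medium prime factors (an average over the shifts); `x` is `1` modulo the small primes and
`0` modulo the medium primes, and the windows are covered together with the covering theorem `Y837.SV.Cov.mcov`
(helper256, helper378, helper837 and teams). The uniformity in `m` comes from a finite net. -/

namespace Pool.Agent.Results.MP_36c81c_nt.PrescribedTotients

open Pool.Agent.K6.H26

/-- The scale `f(Z) = log Z (log₂ Z)² log₄ Z / (log₃ Z)²` (iterated natural logarithms). -/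
noncomputable def f (Z : ℝ) : ℝ :=
  Real.log Z * (Real.log (Real.log Z)) ^ 2 * Real.log (Real.log (Real.log (Real.log Z))) /
    (Real.log (Real.log (Real.log Z))) ^ 2

/-- The ratio `φ(n) / n`. -/
noncomputable def ratio (n : ℕ) : ℝ := (Nat.totient n : ℝ) / n

/-- No prime is within `K` of `y`. -/
def PrimeFree (K : ℝ) (y : ℤ) : Prop := ∀ q : ℕ, q.Prime → K < |(q : ℝ) - y|

theorem result (D J : ℕ) (hD : 1 ≤ D) (ε α : ℝ) (hε : 0 < ε) :
    ∃ c : ℝ, 0 < c ∧ ∃ Z₀ : ℝ, ∀ m : ℕ, 1 ≤ m → ∀ Z : ℝ, Z₀ ≤ Z → ∀ M : ℝ, Z ≤ M → M ≤ Z ^ α →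
    ∀ (A B : ℕ) (K : ℝ), 1 ≤ A → 1 ≤ B → Real.log Z ≤ K → (A : ℝ) * B * K ≤ c * f Z →
    ∃ n : ℕ, M < n ∧ (n : ℝ) ≤ M + Z ∧ n ≡ m [MOD D] ∧
      (∀ j : ℕ, j ≤ J → |ratio (n + j) - ratio (m + j)| < ε) ∧
      (∀ a b d : ℤ, 0 ≤ a → a ≤ A → |b| ≤ B → (a = 0 → 0 < b) → |(d : ℝ)| ≤ K →
        PrimeFree K (a * n ^ 2 + b * n + d)) ∧
      ∀ j : ℤ, 2 * |j| ≤ B → PrimeFree K ((n + j) ^ 2) := by
  obtain ⟨c, hc, Z₀, h⟩ := PT.good_uniform D J hD ε α hε
  refine ⟨c, hc, Z₀, fun m hm Z hZ M hM hMα A B K hA hB hK hABK => ?_⟩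
  obtain ⟨n, h1, h2, h3, h4, h5, h6⟩ := h m hm Z hZ M hM hMα A B K hA hB hK hABK
  refine ⟨n, h1, h2, h3, h4, fun a b d g1 g2 g3 g4 g5 q hq => ?_, fun j hj q hq => ?_⟩
  · have := h5 a b d g1 g2 g3 g4 g5 q hq
    push_cast
    exact this
  · have := h6 j hj q hq
    push_cast
    exact this

end Pool.Agent.Results.MP_36c81c_nt.PrescribedTotients
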