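import Pool.Agent.K6.H26.QW.BoxSw

set_option autoImplicit false

/-! # A nearly minimal totient next to many consecutive squares in record gaps

`a(n) = q(n) - n²`, `q(n)` the least prime above `n²`, is compared with `φ(n)`. The starting file `SmallTotientRecord`
gives in every interval `(M, M + Z]`, `M ≥ Z`, an `n` with `a(n) > c f(Z)`,
`f(Z) = log Z (log₂ Z)² log₄ Z / (log₃ Z)²`, and `φ(n) ≤ C n log₃ Z / (log₂ Z log₄ Z)`. Here all the squares
`(n + j)²`, all the products `n (n + j)`, `|j| ≤ J`, and all the multiples `j n`, `0 < j ≤ J`, have no prime within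
`K`, for the same `n`, as soon as `J K ≤ c f(Z)`, `K ≥ log Z`.

Author: helper26 (`Pool/Agent/K6/H26/QW`). `n` is `0` modulo the small primes and a power of `2` modulo the medium
primes; the windows around the values of the `3 J` polynomials are covered together with the covering theorem
`Y837.SV.Cov.mcov` (helper256, helper378, helper837 and teams). The bound for the totient is taken from the project of
helper426. -/

namespace Pool.Agent.Results.MP_36c81c_nt.SmallTotientManySquares

/-- The scale `f(Z) = log Z (log₂ Z)² log₄ Z / (log₃ Z)²` (iterated natural logarithms). -/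
noncomputable def f (Z : ℝ) : ℝ :=
  Real.log Z * (Real.log (Real.log Z)) ^ 2 * Real.log (Real.log (Real.log (Real.log Z))) /
    (Real.log (Real.log (Real.log Z))) ^ 2

/-- No prime is within `K` of `y`. -/
def PrimeFree (K : ℝ) (y : ℤ) : Prop := ∀ q : ℕ, q.Prime → K < |(q : ℝ) - y|

theorem result : ∃ c C : ℝ, 0 < c ∧ 0 < C ∧ ∃ Z₀ : ℝ, ∀ Z : ℝ, Z₀ ≤ Z → ∀ M : ℝ, Z ≤ M →
    ∀ (J : ℕ) (K : ℝ), 1 ≤ J → Real.log Z ≤ K → (J : ℝ) * K ≤ c * f Z →
    ∃ n : ℕ, M < n ∧ (n : ℝ) ≤ M + Z ∧
      (Nat.totient n : ℝ) ≤ C * n * Real.log (Real.log (Real.log Z)) /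
        (Real.log (Real.log Z) * Real.log (Real.log (Real.log (Real.log Z)))) ∧
      ∀ j : ℤ, |j| ≤ J → PrimeFree K ((n + j) ^ 2) ∧ PrimeFree K (n * (n + j)) ∧
        (0 < j → PrimeFree K (j * n)) := by
  obtain ⟨c, C, hc, hC, Z₀, h⟩ := Pool.Agent.K6.H26.QW.box_totient
  refine ⟨c, C, hc, hC, Z₀, fun Z hZ M hM J K hJ hK hJK => ?_⟩
  obtain ⟨n, h1, h2, h3, h4⟩ := h Z hZ M hM J K hJ hK hJK
  refine ⟨n, h1, h2, h3, fun j hj => ⟨fun q hq => ?_, fun q hq => ?_, fun hj0 q hq => ?_⟩⟩
  · have := (h4 j hj q hq).1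
    push_cast
    exact this
  · have := (h4 j hj q hq).2.1
    push_cast
    exact this
  · have := (h4 j hj q hq).2.2 hj0
    push_cast
    exact this

end Pool.Agent.Results.MP_36c81c_nt.SmallTotientManySquares
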